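import Mathlib
import Pool.Agent.Y1.KN.Stm7
import Pool.Agent.Y304.KN.Num2

/-!
# KN-NUM5: the numerical statement with a logarithm (owner helper1)
-/

set_option linter.unusedSectionVars false
set_option linter.unusedVariables false

namespace Pool.Agent.Y248.KN

open Real

/-- `2 c s^(c-3) ≤ 6` for small `s` -/
theorem small_pow {s : ℝ} (hs0 : 0 ≤ s) (hs : s ≤ 1 / 2) {c : ℕ} (hc : 3 ≤ c) :
    2 * (c : ℝ) * s ^ (c - 3) ≤ 6 := by
  obtain ⟨k, rfl⟩ : ∃ k, c = 3 + k := ⟨c - 3, by omega⟩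
  rw [show 3 + k - 3 = k by omega]
  have h1 : s ^ k ≤ (1 / 2 : ℝ) ^ k := pow_le_pow_left₀ hs0 hs k
  have h2 : ((3 + k : ℕ) : ℝ) ≤ 3 * 2 ^ k := by
    have h3 : 3 + k ≤ 3 * 2 ^ k := by
      induction k with
      | zero => norm_num
      | succ k ih =>
        have := ih (by omega) (pow_le_pow_left₀ hs0 hs k)
        rw [pow_succ]
        omega
    exact_mod_cast h3
  calc 2 * ((3 + k : ℕ) : ℝ) * s ^ k ≤ 2 * (3 * 2 ^ k) * (1 / 2 : ℝ) ^ k := by gcongr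
    _ = 6 * ((2 : ℝ) * (1 / 2)) ^ k := by rw [mul_pow]; ring
    _ = 6 := by norm_num

/-- the case of the condition of `boundB` -/
theorem caseOne (d h e c : ℕ) (w Λ ℓ L N : ℝ) (hw : 1 ≤ w) (hΛ : 1 ≤ Λ) (hℓ0 : 0 ≤ ℓ)
    (hℓ : ℓ ≤ 2 * Λ) (hL0 : 0 ≤ L) (he : 1 ≤ e) (heh : e ≤ h) (hhd : h ≤ d)
    (hc : c = e + (d - h)) (hc3 : 3 ≤ c)
    (hcond : (10 ^ 4 + 10 * L) ^ 2 * ℓ * d ≤ 4 * w)
    (hN : N ≤ √(32 * ℓ * d / w) ^ c) :
    N ≤ 3072 * Λ ^ 2 * (h * d / e) / (w * √w) := by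
  have hw0 : 0 < w := by linarith
  have hsw0 : 0 < √w := Real.sqrt_pos.2 hw0
  have he' : (1 : ℝ) ≤ e := by exact_mod_cast he
  have hh' : (1 : ℝ) ≤ h := by exact_mod_cast he.trans heh
  have hd' : (1 : ℝ) ≤ d := by exact_mod_cast (he.trans heh).trans hhd
  have heh' : (e : ℝ) ≤ h := by exact_mod_cast heh
  obtain ⟨x, hx⟩ : ∃ x : ℝ, x = 32 * ℓ * d / w := ⟨_, rfl⟩
  rw [← hx] at hN
  have hx0 : 0 ≤ x := by rw [hx]; positivity
  have h10 : (10 : ℝ) ^ 8 * (ℓ * d) ≤ 4 * w := by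
    have h1 : (10 : ℝ) ^ 8 ≤ (10 ^ 4 + 10 * L) ^ 2 := by
      have : (10 : ℝ) ^ 4 ≤ 10 ^ 4 + 10 * L := by linarith
      calc (10 : ℝ) ^ 8 = (10 ^ 4) ^ 2 := by norm_num
        _ ≤ _ := pow_le_pow_left₀ (by norm_num) this 2
    have h2 : 0 ≤ ℓ * d := by positivity
    calc (10 : ℝ) ^ 8 * (ℓ * d) ≤ (10 ^ 4 + 10 * L) ^ 2 * (ℓ * d) :=
          mul_le_mul_of_nonneg_right h1 h2
      _ = (10 ^ 4 + 10 * L) ^ 2 * ℓ * d := by ring
      _ ≤ 4 * w := hcond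
  have hx1 : x ≤ (1 / 2) ^ 2 := by
    rw [hx, div_le_iff₀ hw0]
    have : 0 ≤ ℓ * d := by positivity
    linarith
  obtain ⟨s, hs⟩ : ∃ s : ℝ, s = √x := ⟨_, rfl⟩
  rw [← hs] at hN
  have hs0 : 0 ≤ s := by rw [hs]; exact Real.sqrt_nonneg _
  have hs1 : s ≤ 1 / 2 := by
    rw [hs]
    exact Real.sqrt_le_iff.2 ⟨by norm_num, hx1⟩
  have hss : s * s = x := by rw [hs]; exact Real.mul_self_sqrt hx0
  -- `s ≤ 8 Λ d / √w`
  have hs2 : s ≤ 8 * Λ * d / √w := by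
    have h1 : s ^ 2 ≤ (8 * Λ * d / √w) ^ 2 := by
      rw [sq, hss, hx, div_pow, Real.sq_sqrt hw0.le]
      apply div_le_div_of_nonneg_right _ hw0.le
      have h2 : (Λ * d) * 1 ≤ (Λ * d) * (Λ * d) := by
        apply mul_le_mul_of_nonneg_left _ (by positivity)
        nlinarith
      calc 32 * ℓ * d ≤ 32 * (2 * Λ) * d := by gcongr
        _ = 64 * ((Λ * d) * 1) := by ring
        _ ≤ 64 * ((Λ * d) * (Λ * d)) := by gcongr
        _ = (8 * Λ * d) ^ 2 := by ring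
    exact (sq_le_sq₀ hs0 (by positivity)).1 h1
  have hx2 : x ≤ 64 * Λ * d / w := by
    rw [hx]
    apply div_le_div_of_nonneg_right _ hw0.le
    calc 32 * ℓ * d ≤ 32 * (2 * Λ) * d := by gcongr
      _ = 64 * Λ * d := by ring
  have hs3 : s ^ 3 ≤ 512 * Λ ^ 2 * d ^ 2 / (w * √w) := by
    calc s ^ 3 = x * s := by rw [← hss]; ring
      _ ≤ (64 * Λ * d / w) * (8 * Λ * d / √w) := by gcongr
      _ = 512 * Λ ^ 2 * d ^ 2 / (w * √w) := by
        rw [div_mul_div_comm]; ring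
  -- the main inequality
  have hsm := small_pow hs0 hs1 hc3
  have hsp0 : 0 ≤ s ^ (c - 3) := by positivity
  have hc' : (c : ℝ) = e + (d - h) := by
    rw [hc]
    push_cast [Nat.cast_sub hhd]
    ring
  have hmain : (e : ℝ) * d * s ^ (c - 3) ≤ 6 * h := by
    rcases le_or_gt (2 * (c : ℝ)) d with h1 | h1
    · have h2 : (d : ℝ) ≤ 2 * h := by linarith
      have h3 : (e : ℝ) ≤ c := by
        have : (h : ℝ) ≤ d := by exact_mod_cast hhd
        linarith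
      calc (e : ℝ) * d * s ^ (c - 3) ≤ c * (2 * h) * s ^ (c - 3) := by gcongr
        _ = h * (2 * c * s ^ (c - 3)) := by ring
        _ ≤ h * 6 := by gcongr
        _ = 6 * h := by ring
    · calc (e : ℝ) * d * s ^ (c - 3) ≤ h * (2 * c) * s ^ (c - 3) := by gcongr
        _ = h * (2 * c * s ^ (c - 3)) := by ring
        _ ≤ h * 6 := by gcongr
        _ = 6 * h := by ring
  have hmain2 : (d : ℝ) * s ^ (c - 3) ≤ 6 * (h / e) := by
    rw [← mul_div_assoc, le_div_iff₀ (by linarith)]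
    linarith
  calc N ≤ s ^ c := hN
    _ = s ^ 3 * s ^ (c - 3) := by rw [← pow_add]; congr 1; omega
    _ ≤ (512 * Λ ^ 2 * d ^ 2 / (w * √w)) * s ^ (c - 3) := by gcongr
    _ = (512 * Λ ^ 2 * d / (w * √w)) * (d * s ^ (c - 3)) := by ring
    _ ≤ (512 * Λ ^ 2 * d / (w * √w)) * (6 * (h / e)) := by gcongr
    _ = 3072 * Λ ^ 2 * (h * d / e) / (w * √w) := by ring

/-- the case when the condition of `boundB` fails -/
theorem caseTwo (g d : ℕ) (v w Λ ℓ L : ℝ) (hw : w = v ^ 6 * g) (hg1 : (1 : ℝ) ≤ g) (hv : 1 ≤ v)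
    (hΛ : 1 ≤ Λ) (hℓ : ℓ ≤ 2 * Λ) (hℓ0 : 0 ≤ ℓ) (hL0 : 0 ≤ L)
    (hL : L ≤ 162 * Λ ^ 3 + 6 * Real.log v)
    (hd : (1 : ℝ) ≤ d) (hdg : (d : ℝ) ≤ g)
    (hcond : 4 * w < (10 ^ 4 + 10 * L) ^ 2 * ℓ * d) :
    w ≤ 73300000 * Λ ^ 7 * d := by
  have hv0 : 0 < v := by linarith
  have hlogv0 : 0 ≤ Real.log v := Real.log_nonneg hv
  have hΛ3 : 1 ≤ Λ ^ 3 := one_le_pow₀ hΛ
  have hΛ3' : Λ ≤ Λ ^ 3 := le_self_pow₀ hΛ (by norm_num)
  have hlogv := Real.log_le_sub_one_of_pos hv0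
  -- a crude bound for `v`
  have h1 : 10 ^ 4 + 10 * L ≤ 11680 * (Λ ^ 3 * v) := by
    have h2 : Λ ^ 3 ≤ Λ ^ 3 * v := le_mul_of_one_le_right (by positivity) hv
    have h3 : v ≤ Λ ^ 3 * v := le_mul_of_one_le_left (by positivity) hΛ3
    linarith
  have h2 : v ^ 4 ≤ 2 ^ 27 * Λ ^ 7 := by
    have h3 : 4 * (v ^ 6 * g) < (11680 * (Λ ^ 3 * v)) ^ 2 * (2 * Λ) * g := by
      calc 4 * (v ^ 6 * g) = 4 * w := by rw [hw]
        _ < (10 ^ 4 + 10 * L) ^ 2 * ℓ * d := hcond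
        _ ≤ (11680 * (Λ ^ 3 * v)) ^ 2 * (2 * Λ) * g := by gcongr
    have h4 : 4 * v ^ 6 < (11680 * (Λ ^ 3 * v)) ^ 2 * (2 * Λ) := by
      have : (4 * v ^ 6) * g < ((11680 * (Λ ^ 3 * v)) ^ 2 * (2 * Λ)) * g := by linarith
      exact lt_of_mul_lt_mul_right this (by linarith)
    have h5 : v ^ 2 * (4 * v ^ 4) < v ^ 2 * (272844800 * Λ ^ 7) := by
      calc v ^ 2 * (4 * v ^ 4) = 4 * v ^ 6 := by ring
        _ < (11680 * (Λ ^ 3 * v)) ^ 2 * (2 * Λ) := h4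
        _ = v ^ 2 * (272844800 * Λ ^ 7) := by ring
    have h6 : 4 * v ^ 4 < 272844800 * Λ ^ 7 := lt_of_mul_lt_mul_left h5 (by positivity)
    have h7 : 0 < Λ ^ 7 := by positivity
    norm_num
    linarith
  have h3 : 4 * Real.log v ≤ 27 * Real.log 2 + 7 * Real.log Λ := by
    have h4 := Real.log_le_log (by positivity) h2
    rw [Real.log_pow, Real.log_mul (by positivity) (by positivity), Real.log_pow, Real.log_pow] at h4
    push_cast at h4
    exact h4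
  have hlogΛ := Real.log_le_sub_one_of_pos (show 0 < Λ by linarith)
  have hlog2 := Real.log_two_lt_d9
  have h4 : 6 * Real.log v ≤ 39 * Λ := by linarith
  have h5 : 10 ^ 4 + 10 * L ≤ 12100 * Λ ^ 3 := by linarith
  have h6 : 4 * w < 292820000 * Λ ^ 7 * d := by
    calc 4 * w < (10 ^ 4 + 10 * L) ^ 2 * ℓ * d := hcond
      _ ≤ (12100 * Λ ^ 3) ^ 2 * (2 * Λ) * d := by gcongr
      _ = 292820000 * Λ ^ 7 * d := by ring
  have h7 : 0 < Λ ^ 7 * d := by positivity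
  nlinarith

theorem num5 : Pool.Agent.Y1.KN.P_num5 := by
  refine ⟨10 ^ 18, ?_⟩
  intro g m d h e c n Gc N hn hm hh hhd hdg he heh hhe hc hc3 hGc1 hGc2 hb hN hA hK hP
  have hg3 : 3 ≤ g := by omega
  have hg : 1 ≤ g := by omega
  have hg' : (1 : ℝ) ≤ g := by exact_mod_cast hg
  have hg3' : (3 : ℝ) ≤ g := by exact_mod_cast hg3
  have hm' : (1 : ℝ) ≤ m := by exact_mod_cast hm
  have hn' : (1 : ℝ) ≤ n := by exact_mod_cast hn
  have hn2 : (1 : ℝ) ≤ (n : ℝ) ^ 2 := one_le_pow₀ hn'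
  have hd' : (1 : ℝ) ≤ d := by exact_mod_cast hh.trans hhd
  have hh' : (1 : ℝ) ≤ h := by exact_mod_cast hh
  have he' : (1 : ℝ) ≤ e := by exact_mod_cast he
  have heh' : (e : ℝ) ≤ h := by exact_mod_cast heh
  have hdg' : (d : ℝ) ≤ g := by exact_mod_cast hdg
  have hhe' : (h : ℝ) * d ≤ e * g := by exact_mod_cast hhe
  obtain ⟨w, hw⟩ : ∃ w : ℝ, w = (m : ℝ) * g := ⟨_, rfl⟩
  obtain ⟨v, hv⟩ : ∃ v : ℝ, v = (m : ℝ) ^ (1 / 6 : ℝ) := ⟨_, rfl⟩
  have hmv : (m : ℝ) = v ^ 6 := by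
    rw [hv, ← Real.rpow_natCast, ← Real.rpow_mul (by linarith)]
    norm_num
  have hv1 : 1 ≤ v := by
    rw [hv]
    exact Real.one_le_rpow hm' (by norm_num)
  have hv0 : 0 < v := by linarith
  have hwc : ((m * g : ℕ) : ℝ) = w := by rw [hw]; push_cast; ring
  rw [← hw] at hK
  rw [← hw]
  have hgw : (g : ℝ) ≤ w := by rw [hw]; nlinarith
  have hw1 : 1 ≤ w := by linarith
  have hw0 : 0 < w := by linarith
  have hsw0 : 0 < √w := Real.sqrt_pos.2 hw0
  have hsww : √w * √w = w := Real.mul_self_sqrt hw0.le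
  have hsw1 : 1 ≤ √w := by nlinarith
  have hsm : √w ≤ v ^ 3 * g := by
    rw [hw, hmv]
    refine Real.sqrt_le_iff.2 ⟨by positivity, ?_⟩
    calc v ^ 6 * (g : ℝ) ≤ v ^ 6 * (g : ℝ) ^ 2 := by
          apply mul_le_mul_of_nonneg_left _ (by positivity)
          exact le_self_pow₀ hg' (by norm_num)
      _ = (v ^ 3 * g) ^ 2 := by ring
  have hlogm : Real.log m = 6 * Real.log v := by
    rw [hmv, Real.log_pow]
    norm_num
  obtain ⟨Λ', hΛ'⟩ : ∃ Λ' : ℝ, Λ' = 1 + Real.log g := ⟨_, rfl⟩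
  have hlg0 : 0 ≤ Real.log g := Real.log_nonneg hg'
  have hΛ1' : 1 ≤ Λ' := by linarith
  rw [← hΛ']
  obtain ⟨Λ, hΛ⟩ : ∃ Λ : ℝ, Λ = Real.log (2 * g) := ⟨_, rfl⟩
  have hΛΛ : Λ = Real.log 2 + Real.log g := by
    rw [hΛ, Real.log_mul (by norm_num) (by positivity)]
  have hl2 := Real.log_two_lt_d9
  have hl2' := Real.log_two_gt_d9
  have hΛle : Λ ≤ Λ' := by linarith
  have hΛ1 : 1 ≤ Λ := by
    rw [hΛ, Real.le_log_iff_exp_le (by linarith)]
    have h1 := Real.exp_one_lt_d9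
    linarith
  have hΛ16 : 1 ≤ Λ' ^ 16 := one_le_pow₀ hΛ1'
  -- the first factor
  obtain ⟨F, hF⟩ : ∃ F : ℝ, F = (h : ℝ) * d / (e * g) := ⟨_, rfl⟩
  rw [← hF]
  have hF0 : 0 < F := by rw [hF]; positivity
  have hF1 : 1 / (g : ℝ) ≤ F := by
    rw [hF, div_le_div_iff₀ (by positivity) (by positivity)]
    calc 1 * ((e : ℝ) * g) ≤ 1 * (h * g) := by gcongr
      _ ≤ h * d * g := by nlinarith [mul_pos (show (0:ℝ) < h by linarith) (show (0:ℝ) < g by linarith)]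
  -- the target is at least `10^18 n^2 F / √w`
  have hlow : 10 ^ 18 * ((n : ℝ) ^ 2 * F / √w) ≤ 10 ^ 18 * (n : ℝ) ^ 2 * F * (Λ' ^ 16 / √w) := by
    have h1 : 10 ^ 18 * (n : ℝ) ^ 2 * F * (Λ' ^ 16 / √w) =
        10 ^ 18 * ((n : ℝ) ^ 2 * F / √w) * Λ' ^ 16 := by ring
    rw [h1]
    exact le_mul_of_one_le_right (by positivity) hΛ16
  have hlow2 : (n : ℝ) ^ 2 / (g * √w) ≤ (n : ℝ) ^ 2 * F / √w := by
    have h1 : (n : ℝ) ^ 2 / (g * √w) = (n : ℝ) ^ 2 * (1 / g) / √w := by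
      field_simp
    rw [h1]
    gcongr
  have hT0 : 0 ≤ (n : ℝ) ^ 2 * F / √w := by positivity
  have hlow3 : (n : ℝ) ^ 2 * F / √w ≤ 10 ^ 18 * (n : ℝ) ^ 2 * F * (Λ' ^ 16 / √w) := by
    refine le_trans ?_ hlow
    exact le_mul_of_one_le_left hT0 (by norm_num)
  rcases le_or_gt (m * g) n with hng | hng
  · refine hN.trans (le_trans ?_ (hlow2.trans hlow3))
    have h1 : w ≤ n := by rw [hw]; exact_mod_cast hng
    rw [le_div_iff₀ (by positivity), one_mul]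
    have h2 : √w ≤ w := by nlinarith
    calc (g : ℝ) * √w ≤ w * w := by gcongr
      _ ≤ n * n := by gcongr
      _ = (n : ℝ) ^ 2 := by ring
  -- logarithms
  obtain ⟨L, hL⟩ : ∃ L : ℝ, L = Real.log ((Gc * n : ℕ) : ℝ) := ⟨_, rfl⟩
  rw [← hL] at hA hP
  have hGc0 : 1 ≤ Gc := by omega
  have hGc' : (1 : ℝ) ≤ Gc := by exact_mod_cast hGc0
  have hL' : L = Real.log Gc + Real.log n := by
    rw [hL, Nat.cast_mul, Real.log_mul (by positivity) (by positivity)]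
  have hlogn0 : 0 ≤ Real.log n := Real.log_nonneg hn'
  have hlogv0 : 0 ≤ Real.log v := Real.log_nonneg hv1
  have hL0 : 0 ≤ L := by
    rw [hL']
    have := Real.log_nonneg hGc'
    positivity
  have hlogg : Real.log g ≤ Λ := by linarith
  have hlogn : Real.log n ≤ 6 * Real.log v + Λ := by
    have h1 : (n : ℝ) ≤ m * g := by exact_mod_cast hng.le
    have h2 : Real.log n ≤ Real.log (m * g) := Real.log_le_log (by linarith) h1
    rw [Real.log_mul (by positivity) (by positivity), hlogm] at h2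
    linarith
  have hlogd : Real.log d ≤ Λ := by
    have h1 := Real.log_le_log (by linarith) hdg'
    linarith
  have hlogG : ∀ b : ℕ, Gc ≤ (2 * g) ^ b → Real.log Gc ≤ b * Λ := by
    intro b h1
    have h2 : (Gc : ℝ) ≤ (2 * g) ^ b := by exact_mod_cast h1
    calc Real.log Gc ≤ Real.log ((2 * g) ^ b) := Real.log_le_log (by linarith) h2
      _ = b * Λ := by rw [Real.log_pow, hΛ]
  rcases lt_or_ge (160 * Λ * h) (d : ℝ) with ha | ha
  · have h1 : L ≤ (2 * g + 1) * Real.log (2 * g) + 12 * v := by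
      rw [← hΛ, hL']
      have h2 := hlogG (2 * g) hGc2
      push_cast at h2
      have h3 := Real.log_le_sub_one_of_pos hv0
      linarith
    have h2 := Pool.Agent.Y304.KN.caseA g m d h n v L N hv1 hmv hn hh hhd hdg h1 hL0
      (by rw [← hΛ]; exact ha) hP
    refine h2.trans (le_trans ?_ (hlow2.trans hlow3))
    rw [div_le_div_iff₀ (by positivity) (by positivity), one_mul]
    have h3 : (g : ℝ) ^ 2 ≤ (g : ℝ) ^ 16 := pow_le_pow_right₀ hg' (by norm_num)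
    calc (g : ℝ) * √w ≤ g * (v ^ 3 * g) := by gcongr
      _ = (g : ℝ) ^ 2 * v ^ 3 := by ring
      _ ≤ (g : ℝ) ^ 16 * v ^ 3 := by gcongr
      _ ≤ (n : ℝ) ^ 2 * ((g : ℝ) ^ 16 * v ^ 3) := le_mul_of_one_le_left (by positivity) hn2
  -- the bound for the order
  have hlogd0 : 0 ≤ Real.log d := Real.log_nonneg hd'
  have hlogGc : Real.log Gc ≤ 160 * Λ ^ 3 + Λ := by
    obtain ⟨b, hbd⟩ : ∃ b : ℕ, b = ⌊160 * Λ * Real.log d⌋₊ + 1 := ⟨_, rfl⟩
    have hb1 : 160 * Λ * Real.log d < b := by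
      rw [hbd]
      push_cast
      exact Nat.lt_floor_add_one _
    have hb2 : (b : ℝ) ≤ 160 * Λ * Real.log d + 1 := by
      rw [hbd]
      push_cast
      have h1 := Nat.floor_le (show 0 ≤ 160 * Λ * Real.log d by positivity)
      linarith
    have hb3 : (d : ℝ) * (1 - (h : ℝ) / d) ^ b < 1 := by
      have h1 : 1 - (h : ℝ) / d ≤ Real.exp (-((h : ℝ) / d)) := by
        have h2 := Real.add_one_le_exp (-((h : ℝ) / d))
        linarith
      have h2 : 0 ≤ 1 - (h : ℝ) / d := by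
        rw [sub_nonneg, div_le_one (by linarith)]
        exact_mod_cast hhd
      have h3 : (1 - (h : ℝ) / d) ^ b ≤ Real.exp (-(b * ((h : ℝ) / d))) := by
        calc (1 - (h : ℝ) / d) ^ b ≤ (Real.exp (-((h : ℝ) / d))) ^ b :=
              pow_le_pow_left₀ h2 h1 b
          _ = _ := by
              rw [← Real.exp_nat_mul]
              congr 1
              ring
      have h4 : Real.log d < b * ((h : ℝ) / d) := by
        have h5 : 1 / (160 * Λ) ≤ (h : ℝ) / d := by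
          rw [div_le_div_iff₀ (by positivity) (by linarith)]
          linarith
        calc Real.log d = (160 * Λ * Real.log d) * (1 / (160 * Λ)) := by
              field_simp
          _ < b * (1 / (160 * Λ)) := mul_lt_mul_of_pos_right hb1 (by positivity)
          _ ≤ b * ((h : ℝ) / d) := mul_le_mul_of_nonneg_left h5 (Nat.cast_nonneg _)
      calc (d : ℝ) * (1 - (h : ℝ) / d) ^ b ≤ d * Real.exp (-(b * ((h : ℝ) / d))) :=
            mul_le_mul_of_nonneg_left h3 (by linarith)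
        _ = Real.exp (Real.log d - b * ((h : ℝ) / d)) := by
            rw [sub_eq_add_neg, Real.exp_add, Real.exp_log (by linarith)]
        _ < 1 := by
            rw [Real.exp_lt_one_iff]
            linarith
    have h1 := hlogG b (hb b hb3)
    calc Real.log Gc ≤ b * Λ := h1
      _ ≤ (160 * Λ * Real.log d + 1) * Λ := by gcongr
      _ ≤ (160 * Λ * Λ + 1) * Λ := by gcongr
      _ = 160 * Λ ^ 3 + Λ := by ring
  have hΛ3 : Λ ^ 3 ≤ Λ' ^ 3 := pow_le_pow_left₀ (by linarith) hΛle 3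
  have hΛ'3 : Λ' ≤ Λ' ^ 3 := le_self_pow₀ hΛ1' (by norm_num)
  have hLb : L ≤ 162 * Λ' ^ 3 + 6 * Real.log v := by
    rw [hL']
    linarith
  have hℓ0 : 0 ≤ Real.log (4 * d) := Real.log_nonneg (by linarith)
  have hℓ : Real.log (4 * d) ≤ 2 * Λ' := by
    have h1 : Real.log (4 * d) = 2 * Real.log 2 + Real.log d := by
      rw [Real.log_mul (by norm_num) (by positivity), show (4 : ℝ) = 2 ^ 2 by norm_num,
        Real.log_pow]
      norm_num
    have h2 := Real.log_le_log (by linarith) hdg'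
    rw [h1]
    linarith
  rw [Pool.Agent.Y1.KN.boundB, hwc] at hA
  split_ifs at hA with hcond
  · -- the condition holds
    have h1 := caseOne d h e c w Λ' (Real.log (4 * d)) L N hw1 hΛ1' hℓ0 hℓ hL0 he heh hhd hc hc3
      hcond hA
    have h2 : 3072 * Λ' ^ 2 * (h * d / e) / (w * √w) ≤ 3072 * Λ' ^ 2 * F / √w := by
      rw [hF]
      have h3 : 3072 * Λ' ^ 2 * ((h : ℝ) * d / (e * g)) / √w =
          3072 * Λ' ^ 2 * (h * d / e) / (g * √w) := by
        field_simp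
      rw [h3]
      gcongr
    refine h1.trans (h2.trans ?_)
    have h4 : Λ' ^ 2 ≤ Λ' ^ 16 := pow_le_pow_right₀ hΛ1' (by norm_num)
    have h5 : 10 ^ 18 * (n : ℝ) ^ 2 * F * (Λ' ^ 16 / √w) =
        (10 ^ 18 * (n : ℝ) ^ 2) * Λ' ^ 16 * F / √w := by ring
    rw [h5]
    apply div_le_div_of_nonneg_right _ hsw0.le
    apply mul_le_mul_of_nonneg_right _ hF0.le
    have h6 : (3072 : ℝ) ≤ 10 ^ 18 * (n : ℝ) ^ 2 := by linarith
    exact mul_le_mul h6 h4 (by positivity) (by positivity)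
  · -- the condition fails
    push Not at hcond
    have h1 := caseTwo g d v w Λ' (Real.log (4 * d)) L (by rw [hw, hmv]) hg' hv1 hΛ1' hℓ hℓ0 hL0
      hLb hd' hdg' hcond
    have h2 : (g : ℝ) ≤ 73300000 * Λ' ^ 7 * d := hgw.trans h1
    -- `d² ≤ 160 Λ' e g`
    have h3 : (d : ℝ) ^ 2 ≤ 160 * Λ' * (e * g) := by
      calc (d : ℝ) ^ 2 = d * d := by ring
        _ ≤ (160 * Λ * h) * d := by gcongr
        _ = 160 * Λ * (h * d) := by ring
        _ ≤ 160 * Λ' * (e * g) := by gcongr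
    have h4 : (g : ℝ) ≤ 10 ^ 18 * Λ' ^ 16 * e := by
      have h5 : (g : ℝ) * g ≤ (10 ^ 18 * Λ' ^ 16 * e) * g := by
        calc (g : ℝ) * g ≤ (73300000 * Λ' ^ 7 * d) * (73300000 * Λ' ^ 7 * d) := by gcongr
          _ = 5372890000000000 * Λ' ^ 14 * (d : ℝ) ^ 2 := by ring
          _ ≤ 5372890000000000 * Λ' ^ 14 * (160 * Λ' * (e * g)) := by gcongr
          _ = 859662400000000000 * (Λ' ^ 15 * (e * g)) := by ring
          _ ≤ 859662400000000000 * (Λ' ^ 16 * (e * g)) := by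
              have : Λ' ^ 15 ≤ Λ' ^ 16 := pow_le_pow_right₀ hΛ1' (by norm_num)
              gcongr
          _ ≤ 10 ^ 18 * (Λ' ^ 16 * (e * g)) := by
              apply mul_le_mul_of_nonneg_right (by norm_num) (by positivity)
          _ = (10 ^ 18 * Λ' ^ 16 * e) * g := by ring
      exact le_of_mul_le_mul_right h5 (by linarith)
    refine hK.trans ?_
    have h5 : 10 ^ 18 * (n : ℝ) ^ 2 * F * (Λ' ^ 16 / √w) =
        (n : ℝ) ^ 2 * (h * d) * (10 ^ 18 * Λ' ^ 16 * e) / (e ^ 2 * g * √w) := by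
      rw [hF]
      field_simp
    have h6 : (n : ℝ) ^ 2 * h * d / ((e : ℝ) ^ 2 * √w) =
        (n : ℝ) ^ 2 * (h * d) * g / (e ^ 2 * g * √w) := by
      field_simp
    rw [h5, h6]
    gcongr

end Pool.Agent.Y248.KN
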