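import Mathlib
import Pool.Agent.Y1.KN.Stm7

/-!
# KN-NUM6: the numerical statement for spaces of codimension two (owner helper1)
-/

set_option linter.unusedSectionVars false
set_option linter.unusedVariables false

namespace Pool.Agent.Y248.KN

open Real

theorem num6 : Pool.Agent.Y1.KN.P_num6 := by
  refine ⟨10 ^ 18, ?_⟩
  intro g m d n Gc N hn hm hd hg hdg hgd hGc1 hGc hN hB
  have hn' : (1 : ℝ) ≤ n := by exact_mod_cast hn
  have hm' : (1 : ℝ) ≤ m := by exact_mod_cast hm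
  have hd' : (1 : ℝ) ≤ d := by exact_mod_cast hd
  have hg' : (1 : ℝ) ≤ g := by exact_mod_cast hg
  have hGc1' : (1 : ℝ) ≤ Gc := by exact_mod_cast hGc1
  have hn2 : (1 : ℝ) ≤ (n : ℝ) ^ 2 := one_le_pow₀ hn'
  obtain ⟨w, hw⟩ : ∃ w : ℝ, w = (m : ℝ) * g := ⟨_, rfl⟩
  have hw1 : 1 ≤ w := by rw [hw]; nlinarith
  have hgw : (g : ℝ) ≤ w := by rw [hw]; nlinarith
  have hwc : ((m * g : ℕ) : ℝ) = w := by rw [hw]; push_cast; ring
  rw [← hw]
  have hw0 : 0 < w := by linarith
  have hsw1 : 1 ≤ √w := by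
    rw [show (1 : ℝ) = √1 by simp]
    exact Real.sqrt_le_sqrt hw1
  have hsw0 : 0 < √w := by linarith
  have hsww : √w * √w = w := Real.mul_self_sqrt hw0.le
  have hlg0 : 0 ≤ Real.log g := Real.log_nonneg hg'
  obtain ⟨Λ, hΛ⟩ : ∃ Λ : ℝ, Λ = 1 + Real.log g := ⟨_, rfl⟩
  have hΛ1 : 1 ≤ Λ := by linarith
  rw [← hΛ]
  have hΛ16 : 1 ≤ Λ ^ 16 := one_le_pow₀ hΛ1
  -- a lower bound for the target
  have hlow : 10 ^ 18 * (n : ℝ) ^ 2 / √w ≤ 10 ^ 18 * (n : ℝ) ^ 2 * (Λ ^ 16 / √w) := by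
    rw [← mul_div_assoc]
    apply div_le_div_of_nonneg_right _ hsw0.le
    exact le_mul_of_one_le_right (by positivity) hΛ16
  rcases le_or_gt (m * g) n with hng | hng
  · refine hN.trans (le_trans ?_ hlow)
    rw [le_div_iff₀ hsw0, one_mul]
    have h1 : w ≤ n := by rw [hw]; exact_mod_cast hng
    have h2 : √w ≤ w := by nlinarith
    nlinarith
  -- the logarithm
  obtain ⟨L, hL⟩ : ∃ L : ℝ, L = Real.log ((Gc * n : ℕ) : ℝ) := ⟨_, rfl⟩
  rw [← hL] at hB
  have hnw : (n : ℝ) ≤ w := by rw [hw]; exact_mod_cast hng.le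
  have hGcw : (Gc : ℝ) ≤ 4 * w := by
    have : (Gc : ℝ) ≤ 4 * g := by exact_mod_cast hGc
    linarith
  have hL0 : 0 ≤ L := by
    rw [hL]
    apply Real.log_nonneg
    have : 1 ≤ Gc * n := Nat.one_le_iff_ne_zero.2 (Nat.mul_ne_zero (by omega) (by omega))
    exact_mod_cast this
  have hLw : L ≤ Real.log 4 + 2 * Real.log w := by
    have h1 : Real.log ((Gc * n : ℕ) : ℝ) ≤ Real.log (4 * w ^ 2) := by
      apply Real.log_le_log
      · have : 1 ≤ Gc * n := Nat.one_le_iff_ne_zero.2 (Nat.mul_ne_zero (by omega) (by omega))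
        exact_mod_cast this
      · push_cast
        calc (Gc : ℝ) * n ≤ (4 * w) * w := by gcongr
          _ = 4 * w ^ 2 := by ring
    rw [hL]
    refine h1.trans (le_of_eq ?_)
    rw [Real.log_mul (by norm_num) (by positivity), Real.log_pow]
    norm_num
  have hlog4 : Real.log 4 ≤ 2 := by
    have h1 : Real.log 4 = 2 * Real.log 2 := by
      rw [show (4 : ℝ) = 2 ^ 2 by norm_num, Real.log_pow]; norm_num
    have := Real.log_two_lt_d9
    linarith
  have hd2 : (d : ℝ) ^ 2 ≤ 2 * g := by exact_mod_cast hdg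
  have hℓ0 : 0 ≤ Real.log (4 * d) := Real.log_nonneg (by linarith)
  rw [Pool.Agent.Y1.KN.boundB, hwc] at hB
  split_ifs at hB with hcond
  · -- the condition holds
    have hx0 : 0 ≤ 32 * Real.log (4 * d) * d / w := by positivity
    rw [Real.sq_sqrt hx0] at hB
    have h1 : Real.log (4 * d) ≤ 2 * Λ := by
      have h2 : (4 * (d : ℝ)) ^ 2 ≤ 32 * g := by nlinarith
      have h3 : 2 * Real.log (4 * d) ≤ Real.log 32 + Real.log g := by
        rw [← Real.log_mul (by norm_num) (by positivity)]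
        have h4 := Real.log_le_log (by positivity) h2
        rw [Real.log_pow] at h4
        exact_mod_cast h4
      have h5 : Real.log 32 ≤ 4 := by
        have h1 : Real.log 32 = 5 * Real.log 2 := by
          rw [show (32 : ℝ) = 2 ^ 5 by norm_num, Real.log_pow]; norm_num
        have := Real.log_two_lt_d9
        linarith
      rw [hΛ]
      linarith
    have h2 : (d : ℝ) ≤ 2 * √w := by
      have h3 : (d : ℝ) ^ 2 ≤ (2 * √w) ^ 2 := by
        rw [mul_pow, Real.sq_sqrt hw0.le]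
        linarith
      exact (sq_le_sq₀ (by linarith) (by positivity)).1 h3
    have h3 : 32 * Real.log (4 * d) * d / w ≤ 128 * Λ / √w := by
      rw [div_le_div_iff₀ hw0 hsw0]
      calc 32 * Real.log (4 * d) * d * √w ≤ 32 * (2 * Λ) * (2 * √w) * √w := by gcongr
        _ = 128 * Λ * (√w * √w) := by ring
        _ = 128 * Λ * w := by rw [hsww]
    refine hB.trans (h3.trans ?_)
    rw [← mul_div_assoc]
    apply div_le_div_of_nonneg_right _ hsw0.le
    have h4 : Λ ≤ Λ ^ 16 := le_self_pow₀ hΛ1 (by norm_num)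
    calc 128 * Λ ≤ 10 ^ 18 * 1 * Λ ^ 16 := by linarith
      _ ≤ 10 ^ 18 * (n : ℝ) ^ 2 * Λ ^ 16 := by gcongr
  · -- the condition fails
    push Not at hcond
    refine hN.trans (le_trans ?_ hlow)
    rw [le_div_iff₀ hsw0, one_mul]
    obtain ⟨u, hu⟩ : ∃ u : ℝ, u = w ^ (1 / 12 : ℝ) := ⟨_, rfl⟩
    have hwu : w = u ^ 12 := by
      rw [hu, ← Real.rpow_natCast, ← Real.rpow_mul hw0.le]
      norm_num
    have hu1 : 1 ≤ u := by
      rw [hu]
      exact Real.one_le_rpow hw1 (by norm_num)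
    have hu0 : 0 < u := by linarith
    have hsu : √w = u ^ 6 := by
      rw [hwu, show u ^ 12 = (u ^ 6) ^ 2 by ring]
      exact Real.sqrt_sq (by positivity)
    have hlogw : Real.log w ≤ 12 * u := by
      rw [hwu, Real.log_pow]
      have := Real.log_le_sub_one_of_pos hu0
      push_cast
      linarith
    have h1 : 10 ^ 4 + 10 * L ≤ 11000 * u := by linarith
    have h2 : (d : ℝ) ≤ 2 * u ^ 6 := by
      have h3 : (d : ℝ) ^ 2 ≤ (2 * u ^ 6) ^ 2 := by
        rw [mul_pow, ← pow_mul]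
        have : (g : ℝ) ≤ u ^ 12 := by rw [← hwu]; exact hgw
        norm_num
        linarith
      exact (sq_le_sq₀ (by linarith) (by positivity)).1 h3
    have h3 : Real.log (4 * d) ≤ 9 * u := by
      have h4 : Real.log (4 * d) ≤ Real.log (8 * u ^ 6) :=
        Real.log_le_log (by linarith) (by linarith)
      rw [Real.log_mul (x := 8) (by norm_num) (by positivity), Real.log_pow] at h4
      have h5 : Real.log 8 ≤ 3 := by
        have h1 : Real.log 8 = 3 * Real.log 2 := by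
          rw [show (8 : ℝ) = 2 ^ 3 by norm_num, Real.log_pow]; norm_num
        have := Real.log_two_lt_d9
        linarith
      have := Real.log_le_sub_one_of_pos hu0
      push_cast at h4
      linarith
    have h4 : 4 * u ^ 12 < 3 * 10 ^ 9 * u ^ 9 := by
      calc 4 * u ^ 12 = 4 * w := by rw [hwu]
        _ < (10 ^ 4 + 10 * L) ^ 2 * Real.log (4 * d) * d := hcond
        _ ≤ (11000 * u) ^ 2 * (9 * u) * (2 * u ^ 6) := by gcongr
        _ = 2178000000 * u ^ 9 := by ring
        _ ≤ 3 * 10 ^ 9 * u ^ 9 := by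
          have : 0 < u ^ 9 := by positivity
          nlinarith
    have h5 : u ^ 3 ≤ 10 ^ 9 := by
      by_contra hcon
      push Not at hcon
      have : (10 : ℝ) ^ 9 * u ^ 9 ≤ u ^ 3 * u ^ 9 := by gcongr
      have h6 : u ^ 3 * u ^ 9 = u ^ 12 := by ring
      have h7 : 0 < u ^ 9 := by positivity
      nlinarith
    rw [hsu]
    calc u ^ 6 = u ^ 3 * u ^ 3 := by ring
      _ ≤ 10 ^ 9 * 10 ^ 9 := by gcongr
      _ = 10 ^ 18 * 1 := by norm_num
      _ ≤ 10 ^ 18 * (n : ℝ) ^ 2 := by gcongr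

end Pool.Agent.Y248.KN
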